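import Pool.Agent.helper3.FT.AlgDefs

/-! FT project (MP_16912e_nt): module A2, conjugate ideals (`mul_bar`, `pow_inj`). -/

set_option autoImplicit false

namespace Pool.Agent.helper3.FT

open NumberField Pool.Agent.helper47.RA

variable {K : Type} [Field K] [NumberField K]

/-- A2: powers of ideals are injective -/
theorem pow_inj (I J : Ideal (𝓞 K)) (n : ℕ) (hn : n ≠ 0) (h : I ^ n = J ^ n) : I = J := by
  have h1 : I ∣ J := (UniqueFactorizationMonoid.pow_dvd_pow_iff_dvd hn).1 (dvd_of_eq h)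
  have h2 : J ∣ I := (UniqueFactorizationMonoid.pow_dvd_pow_iff_dvd hn).1 (dvd_of_eq h.symm)
  exact dvd_antisymm h1 h2

namespace QF

variable (Q : QF K)

theorem bar_mul (I J : Ideal (𝓞 K)) : Q.bar (I * J) = Q.bar I * Q.bar J :=
  Ideal.map_mul Q.cj I J

theorem bar_pow (I : Ideal (𝓞 K)) (n : ℕ) : Q.bar (I ^ n) = Q.bar I ^ n :=
  Ideal.map_pow Q.cj I n

theorem bar_span (x : 𝓞 K) : Q.bar (Ideal.span {x}) = Ideal.span {Q.cj x} := by
  unfold bar
  rw [Ideal.map_span, Set.image_singleton]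

private theorem h96_cj_int (c : ℤ) : Q.cj (c : 𝓞 K) = c := map_intCast Q.cj c

private theorem h96_cj_cj (a : 𝓞 K) : Q.cj (Q.cj a) = a := by
  obtain ⟨x, y, rfl⟩ := Q.hspan a
  rw [map_add, map_mul, h96_cj_int, h96_cj_int, Q.cj_ω, map_add, map_mul, h96_cj_int, h96_cj_int,
    map_sub, h96_cj_int, Q.cj_ω]
  ring

theorem bar_bar (I : Ideal (𝓞 K)) : Q.bar (Q.bar I) = I := by
  apply le_antisymm
  · unfold bar
    rw [Ideal.map_le_iff_le_comap, Ideal.map_le_iff_le_comap]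
    intro x hx
    rw [Ideal.mem_comap, Ideal.mem_comap, h96_cj_cj]
    exact hx
  · intro x hx
    have h := Ideal.mem_map_of_mem Q.cj (Ideal.mem_map_of_mem Q.cj hx)
    rw [h96_cj_cj] at h
    exact h

theorem absNorm_bar (I : Ideal (𝓞 K)) : Ideal.absNorm (Q.bar I) = Ideal.absNorm I := by
  rw [Ideal.absNorm_apply, Ideal.absNorm_apply, Submodule.cardQuot_apply, Submodule.cardQuot_apply]
  exact Nat.card_congr (Ideal.quotientEquiv I (Q.bar I) Q.cj rfl).symm.toEquiv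

private theorem h96_norm (a : 𝓞 K) : ∃ N : ℤ, a * Q.cj a = N ∧
    (Ideal.absNorm (Ideal.span {a}) : ℤ) = |N| := by
  obtain ⟨x, y, hxy⟩ := Q.hspan a
  have h1 : a * Q.cj a = ((x ^ 2 + x * y * Q.t - Q.k * y ^ 2 : ℤ) : 𝓞 K) := by
    rw [hxy, map_add, map_mul, h96_cj_int, h96_cj_int, Q.cj_ω]
    push_cast
    linear_combination (-(y : 𝓞 K) ^ 2) * Q.hω
  refine ⟨_, h1, ?_⟩
  have h2 := Q.hnorm a
  rw [← Q.v₁_cj a, ← Q.v₁_mul, h1, Q.v₁_int] at h2
  have h3 : (((Ideal.absNorm (Ideal.span {a}) : ℕ) : ℤ) : ℝ) =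
      ((|x ^ 2 + x * y * Q.t - Q.k * y ^ 2| : ℤ) : ℝ) := by
    rw [Int.cast_natCast, h2, Int.cast_abs]
  exact_mod_cast h3

theorem mul_bar (I : Ideal (𝓞 K)) : I * Q.bar I = Ideal.span {(Ideal.absNorm I : 𝓞 K)} := by
  classical
  by_cases h0 : I = ⊥
  · subst h0
    simp
  · have hmem : I ∈ nonZeroDivisors (Ideal (𝓞 K)) := mem_nonZeroDivisors_of_ne_zero h0
    set h := Fintype.card (ClassGroup (𝓞 K)) with hh
    have hpos : h ≠ 0 := Fintype.card_ne_zero
    have h1 : (ClassGroup.mk0 ⟨I, hmem⟩) ^ h = 1 := pow_card_eq_one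
    have h2 : ClassGroup.mk0 (⟨I, hmem⟩ ^ h) = 1 := by rw [map_pow, h1]
    rw [ClassGroup.mk0_eq_one_iff] at h2
    have h3 : Submodule.IsPrincipal (I ^ h) := h2
    obtain ⟨x, hx⟩ := h3
    have hx' : I ^ h = Ideal.span {x} := hx
    obtain ⟨N, hN, hN2⟩ := Q.h96_norm x
    apply pow_inj _ _ h hpos
    rw [mul_pow, ← bar_pow, hx', bar_span, Ideal.span_singleton_mul_span_singleton, hN,
      Ideal.span_singleton_pow]
    have h4 : (Ideal.absNorm I : ℤ) ^ h = |N| := by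
      rw [← hN2, ← hx', map_pow]
      push_cast
      rfl
    have h5 : ((Ideal.absNorm I : 𝓞 K)) ^ h = ((|N| : ℤ) : 𝓞 K) := by
      rw [← h4]
      push_cast
      rfl
    rw [h5]
    rcases abs_choice N with h6 | h6
    · rw [h6]
    · rw [h6, Int.cast_neg, Ideal.span_singleton_neg]

end QF

end Pool.Agent.helper3.FT
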