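import Pool.Agent.helper96.FT.A4a
import Pool.Agent.helper61.FT.A1

/-! FT project (MP_16912e_nt): module A4b (`Full.gcd_dvd`). -/

set_option autoImplicit false

namespace Pool.Agent.helper3.FT

open NumberField Pool.Agent.helper47.RA

variable {K : Type} [Field K] [NumberField K]

namespace QF

variable (Q : QF K)

theorem h96_Y_mul (d : ℤ) {a b : 𝓞 K} (ha : d ∣ Q.Y a) (hb : d ∣ Q.Y b) : d ∣ Q.Y (a * b) := by
  obtain ⟨x, hx⟩ := Q.exists_re a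
  obtain ⟨y, hy⟩ := Q.exists_re b
  have h1 : Q.Y (a * b) = x * Q.Y b + y * Q.Y a + Q.t * Q.Y a * Q.Y b := by
    generalize Q.Y a = a2 at hx
    generalize Q.Y b = b2 at hy
    apply Q.Y_eq (x := x * y + Q.k * a2 * b2)
    rw [hx, hy]
    push_cast
    linear_combination ((a2 : 𝓞 K) * b2) * Q.hω
  rw [h1]
  exact dvd_add (dvd_add (hb.mul_left _) (ha.mul_left _)) (hb.mul_left _)

theorem h96_Y_cj (d : ℤ) {a : 𝓞 K} (ha : d ∣ Q.Y a) : d ∣ Q.Y (Q.cj a) := by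
  rw [Q.Y_cj]
  exact (dvd_neg).2 ha

theorem h96_dvd_Y (c : ℤ) (hc : c ≠ 0) {a : 𝓞 K} (h : (c : 𝓞 K) ∣ a) : c ∣ Q.Y a := by
  obtain ⟨x, hx⟩ := Q.exists_re a
  generalize Q.Y a = y at hx ⊢
  rw [hx, Q.int_dvd_iff c hc] at h
  exact h.2

end QF

variable {Q : QF K}

/-- the prime power case -/
theorem Full.h96_pow (F : Full Q) (d : ℤ) (h1 : d ∣ Q.Y F.β) (h2 : d ∣ Q.Y F.γ)
    (q : ℕ) (hq : q.Prime) (e : ℕ) (he : (q : ℤ) ^ e ∣ d) :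
    (q : ℤ) ^ e ∣ Q.Y F.u ∧ (q : ℤ) ^ e ∣ Q.Y F.v ∧ (q : ℤ) ^ e ∣ Q.Y F.α ∧
      (q : ℤ) ^ e ∣ Q.Y F.α' := by
  have hqZ : Prime (q : ℤ) := Nat.prime_iff_prime_int.1 hq
  have b1 : (q : ℤ) ^ e ∣ Q.Y F.β := he.trans h1
  have b2 : (q : ℤ) ^ e ∣ Q.Y F.γ := he.trans h2
  have c1 : (q : ℤ) ^ e ∣ F.Λ * Q.Y F.u := by
    rw [← Q.Y_int_mul, ← F.e1]
    exact Q.h96_Y_mul _ b1 (Q.h96_Y_cj _ b2)
  have c2 : (q : ℤ) ^ e ∣ F.Z * Q.Y F.v := by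
    rw [← Q.Y_int_mul, ← F.e2]
    exact Q.h96_Y_mul _ b1 b2
  have c3 : (q : ℤ) ^ e ∣ F.Λ ^ 2 * Q.Y F.α := by
    rw [← Q.Y_int_mul, Int.cast_pow, ← F.e3, sq]
    exact Q.h96_Y_mul _ (Q.h96_Y_mul _ b1 b1) (Q.h96_Y_cj _ b2)
  have c4 : (q : ℤ) ^ e ∣ F.Z ^ 2 * Q.Y F.α' := by
    rw [← Q.Y_int_mul, Int.cast_pow, ← F.e4, sq]
    exact Q.h96_Y_mul _ (Q.h96_Y_mul _ b2 b2) b1
  by_cases hZΛ : ¬ (q : ℤ) ∣ F.Z ∧ ¬ (q : ℤ) ∣ F.Λ
  · obtain ⟨hZ, hΛ⟩ := hZΛ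
    have cZ : IsCoprime ((q : ℤ) ^ e) F.Z := (hqZ.coprime_iff_not_dvd.2 hZ).pow_left
    have cΛ : IsCoprime ((q : ℤ) ^ e) F.Λ := (hqZ.coprime_iff_not_dvd.2 hΛ).pow_left
    exact ⟨cΛ.dvd_of_dvd_mul_left c1, cZ.dvd_of_dvd_mul_left c2,
      (cΛ.pow_right (n := 2)).dvd_of_dvd_mul_left c3,
      (cZ.pow_right (n := 2)).dvd_of_dvd_mul_left c4⟩
  · rcases Nat.eq_zero_or_pos e with he0 | he0
    · subst he0
      simp
    have hq1 : (q : ℤ) ∣ (q : ℤ) ^ e := dvd_pow_self _ he0.ne'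
    have hN : (q : ℤ) ∣ F.Z ^ 2 * F.Λ ∧ (q : ℤ) ∣ F.Z * F.Λ ^ 2 := by
      by_cases h : (q : ℤ) ∣ F.Z
      · exact ⟨(h.pow two_ne_zero).mul_right _, h.mul_right _⟩
      · have h' : (q : ℤ) ∣ F.Λ := by
          by_contra h3
          exact hZΛ ⟨h, h3⟩
        exact ⟨h'.mul_left _, (h'.pow two_ne_zero).mul_left _⟩
    have nβ : F.β * Q.cj F.β = ((F.Z ^ 2 * F.Λ : ℤ) : 𝓞 K) := by
      rw [F.nβ]; push_cast; rfl
    have nγ : F.γ * Q.cj F.γ = ((F.Z * F.Λ ^ 2 : ℤ) : 𝓞 K) := by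
      rw [F.nγ]; push_cast; rfl
    have qβ : (q : 𝓞 K) ∣ F.β := Q.dvd_of_dvd q hq F.β _ nβ (hq1.trans b1) hN.1
    have qγ : (q : 𝓞 K) ∣ F.γ := Q.dvd_of_dvd q hq F.γ _ nγ (hq1.trans b2) hN.2
    obtain ⟨P, hP, hPP, hbar, ⟨a1, ha1⟩, ⟨L1, hL1⟩⟩ := F.ramified q hq qβ qγ
    have hq0 : (q : 𝓞 K) ≠ 0 := by exact_mod_cast hq.ne_zero
    have hP0 : P ≠ ⊥ := by
      rintro rfl
      have h3 : (⊥ : Ideal (𝓞 K)) = Ideal.span {(q : 𝓞 K)} := by rw [← hPP]; simp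
      exact hq0 (Ideal.span_singleton_eq_bot.1 h3.symm)
    have pP : Prime P := Ideal.prime_of_isPrime hP0 hP
    have na1 : ¬ P ∣ a1 := by
      rintro ⟨c, hc⟩
      apply F.pa q hq
      rw [← hPP, ha1, hc]
      exact ⟨c, by ring⟩
    have nL1 : ¬ P ∣ L1 := by
      rintro ⟨c, hc⟩
      apply F.pL q hq
      rw [← hPP, hL1, hc]
      exact ⟨c, by ring⟩
    -- `q ^ 2` divides an element whose ideal is divisible by `P ^ 4`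
    have key : ∀ x : 𝓞 K, P ^ 4 ∣ Ideal.span {x} → (q : ℤ) ^ 2 ∣ Q.Y x := by
      intro x hx
      apply Q.h96_dvd_Y _ (pow_ne_zero _ (by exact_mod_cast hq.ne_zero))
      have h3 : P ^ 4 = Ideal.span {(((q : ℤ) ^ 2 : ℤ) : 𝓞 K)} := by
        rw [show P ^ 4 = (P * P) ^ 2 by ring, hPP, Ideal.span_singleton_pow]
        push_cast
        rfl
      rw [h3, Ideal.dvd_iff_le, Ideal.span_singleton_le_span_singleton] at hx
      exact hx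
    have bP : Q.bar F.L = P * Q.bar L1 := by rw [hL1, Q.bar_mul, hbar]
    have d1 : (q : ℤ) ^ 2 ∣ Q.Y F.u := by
      apply key
      rw [F.iu, bP, ha1]
      exact ⟨a1 ^ 3 * Q.bar L1, by ring⟩
    have d2 : (q : ℤ) ^ 2 ∣ Q.Y F.v := by
      apply key
      rw [F.iv, ha1, hL1]
      exact ⟨a1 * L1 ^ 3, by ring⟩
    have d3 : (q : ℤ) ^ 2 ∣ Q.Y F.α := by
      apply key
      rw [F.iα, ha1]
      exact ⟨P * a1 ^ 5, by ring⟩
    have d4 : (q : ℤ) ^ 2 ∣ Q.Y F.α' := by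
      apply key
      rw [F.iα', hL1]
      exact ⟨P * L1 ^ 5, by ring⟩
    -- `e ≤ 1`
    have he1 : e ≤ 1 := by
      by_contra hlt
      push Not at hlt
      have hq2 : (q : ℤ) ^ 2 ∣ Q.Y F.β := (pow_dvd_pow _ hlt).trans b1
      obtain ⟨β1, hβ1⟩ := qβ
      have hc : (q : 𝓞 K) = ((q : ℤ) : 𝓞 K) := by push_cast; rfl
      have hY : Q.Y F.β = (q : ℤ) * Q.Y β1 := by rw [hβ1, hc, Q.Y_int_mul]
      have hq3 : (q : ℤ) ∣ Q.Y β1 := by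
        rw [hY, sq] at hq2
        exact Int.dvd_of_mul_dvd_mul_left (by exact_mod_cast hq.ne_zero) hq2
      obtain ⟨N1, hN1, -⟩ := Q.exists_norm β1
      have nP : Ideal.absNorm P = q := by
        have h3 := congrArg Ideal.absNorm hPP
        rw [map_mul, h96_norm_q Q q, ← sq] at h3
        exact Nat.pow_left_injective (by norm_num : (2 : ℕ) ≠ 0) h3
      have qZ : (q : ℤ) ∣ F.Z := by
        rw [← dvd_abs, ← F.na, ← nP, ha1, map_mul]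
        push_cast
        exact dvd_mul_right _ _
      have qΛ : (q : ℤ) ∣ F.Λ := by
        rw [← dvd_abs, ← F.nL, ← nP, hL1, map_mul]
        push_cast
        exact dvd_mul_right _ _
      have h4 : F.Z ^ 2 * F.Λ = (q : ℤ) ^ 2 * N1 := by
        apply QF.int_inj (K := K)
        rw [← nβ, hβ1, map_mul, map_natCast]
        push_cast
        rw [← hN1]
        ring
      have hqN : (q : ℤ) ∣ N1 := by
        obtain ⟨z, hz⟩ := qZ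
        obtain ⟨l, hl⟩ := qΛ
        have hq0' : (q : ℤ) ^ 2 ≠ 0 := pow_ne_zero _ (by exact_mod_cast hq.ne_zero)
        refine ⟨z ^ 2 * l, ?_⟩
        apply mul_left_cancel₀ hq0'
        rw [← h4, hz, hl]
        ring
      obtain ⟨β2, hβ2⟩ := Q.dvd_of_dvd q hq β1 N1 hN1 hq3 hqN
      have h5 : P ^ 4 ∣ Ideal.span {F.β} := by
        rw [show P ^ 4 = (P * P) ^ 2 by ring, hPP, Ideal.span_singleton_pow, Ideal.dvd_iff_le,
          Ideal.span_singleton_le_span_singleton]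
        exact ⟨β2, by rw [hβ1, hβ2]; ring⟩
      rw [F.iβ, ha1, hL1] at h5
      have h6 : P ^ 3 * P ∣ P ^ 3 * (a1 ^ 2 * L1) := by
        have e1 : P ^ 3 * P = P ^ 4 := by ring
        have e2 : P ^ 3 * (a1 ^ 2 * L1) = (P * a1) ^ 2 * (P * L1) := by ring
        rw [e1, e2]
        exact h5
      have h7 : P ∣ a1 ^ 2 * L1 :=
        (mul_dvd_mul_iff_left (pow_ne_zero 3 hP0)).1 h6
      rcases pP.dvd_or_dvd h7 with h | h
      · exact na1 (pP.dvd_of_dvd_pow h)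
      · exact nL1 h
    have h8 : (q : ℤ) ^ e ∣ (q : ℤ) ^ 2 := pow_dvd_pow _ (by omega)
    exact ⟨h8.trans d1, h8.trans d2, h8.trans d3, h8.trans d4⟩

theorem h96_dvd_of_pow {d x : ℤ} (h : ∀ q : ℕ, q.Prime → ∀ e : ℕ, (q : ℤ) ^ e ∣ d →
    (q : ℤ) ^ e ∣ x) : d ∣ x := by
  rw [← Int.natAbs_dvd_natAbs, Nat.dvd_iff_prime_pow_dvd_dvd]
  intro p k hp hk
  have h1 : ((p ^ k : ℕ) : ℤ) ∣ d := by
    rw [Int.natCast_dvd]
    exact hk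
  push_cast at h1
  have h2 := h p hp k h1
  have h3 : ((p ^ k : ℕ) : ℤ) ∣ x := by push_cast; exact h2
  rwa [Int.natCast_dvd] at h3

/-- A4b -/
theorem Full.gcd_dvd (F : Full Q) (d : ℤ) (hd : d ≠ 0) (h1 : d ∣ Q.Y F.β) (h2 : d ∣ Q.Y F.γ) :
    d ∣ Q.Y F.u ∧ d ∣ Q.Y F.v ∧ d ∣ Q.Y F.α ∧ d ∣ Q.Y F.α' := by
  have _ := hd
  refine ⟨?_, ?_, ?_, ?_⟩
  · exact h96_dvd_of_pow fun q hq e he => (F.h96_pow d h1 h2 q hq e he).1
  · exact h96_dvd_of_pow fun q hq e he => (F.h96_pow d h1 h2 q hq e he).2.1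
  · exact h96_dvd_of_pow fun q hq e he => (F.h96_pow d h1 h2 q hq e he).2.2.1
  · exact h96_dvd_of_pow fun q hq e he => (F.h96_pow d h1 h2 q hq e he).2.2.2

end Pool.Agent.helper3.FT
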