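import Pool.Agent.helper3.FT.Defs

/-! FT project (MP_16912e_nt): module P7 (`pairs_card`). -/

set_option autoImplicit false

namespace Pool.Agent.helper3.FT

open Finset

theorem h96_card_div (N d : ℕ) :
    (((Icc 1 N).filter (fun n => d ∣ n)).card : ℝ) ≤ N / d := by
  have h : (Icc 1 N).filter (fun n => d ∣ n) = (Ioc 0 N).filter (fun n => d ∣ n) := by
    ext x
    simp only [mem_filter, mem_Icc, mem_Ioc]
    constructor <;> rintro ⟨⟨h1, h2⟩, h3⟩ <;> exact ⟨⟨by omega, h2⟩, h3⟩
  rw [h, Nat.Ioc_filter_dvd_card_eq_div]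
  exact Nat.cast_div_le

theorem h96_card_divisors (y : ℕ) (hy : Squarefree y) :
    y.divisors.card ≤ 2 ^ y.primeFactors.card := by
  rw [Nat.card_divisors hy.ne_zero]
  calc ∏ x ∈ y.primeFactors, (y.factorization x + 1) ≤ ∏ x ∈ y.primeFactors, 2 := by
        apply prod_le_prod'
        intro x _
        have := hy.natFactorization_le_one x
        omega
    _ = 2 ^ y.primeFactors.card := by rw [prod_const]

/-- P7 -/
theorem pairs_card (N K y : ℕ) (hy : Squarefree y) :
    ((pairs N K y).card : ℝ) ≤ 2 ^ y.primeFactors.card * (N * K / y) := by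
  classical
  have hy0 : 0 < y := Nat.pos_of_ne_zero hy.ne_zero
  have hsub : pairs N K y ⊆ y.divisors.biUnion (fun d =>
      (Icc 1 N).filter (fun n => d ∣ n) ×ˢ (Icc 1 K).filter (fun k => (y / d) ∣ k)) := by
    intro p hp
    unfold pairs at hp
    rw [mem_filter, mem_product] at hp
    obtain ⟨⟨hp1, hp2⟩, -, -, -, hp3⟩ := hp
    rw [mem_biUnion]
    refine ⟨Nat.gcd y p.1, Nat.mem_divisors.2 ⟨Nat.gcd_dvd_left _ _, hy0.ne'⟩, ?_⟩
    rw [mem_product, mem_filter, mem_filter]
    refine ⟨⟨hp1, Nat.gcd_dvd_right _ _⟩, hp2, ?_⟩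
    have hg : 0 < Nat.gcd y p.1 := Nat.gcd_pos_of_pos_left _ hy0
    have hc : Nat.Coprime (y / Nat.gcd y p.1) (p.1 / Nat.gcd y p.1) :=
      Nat.coprime_div_gcd_div_gcd hg
    apply hc.dvd_of_dvd_mul_left
    obtain ⟨c, hc'⟩ := hp3
    refine ⟨c, ?_⟩
    have h1 : Nat.gcd y p.1 * (p.1 / Nat.gcd y p.1) = p.1 :=
      Nat.mul_div_cancel' (Nat.gcd_dvd_right _ _)
    have h2 : Nat.gcd y p.1 * (y / Nat.gcd y p.1) = y :=
      Nat.mul_div_cancel' (Nat.gcd_dvd_left _ _)
    apply Nat.eq_of_mul_eq_mul_left hg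
    calc Nat.gcd y p.1 * (p.1 / Nat.gcd y p.1 * p.2) =
        Nat.gcd y p.1 * (p.1 / Nat.gcd y p.1) * p.2 := by ring
      _ = y * c := by rw [h1, hc']
      _ = Nat.gcd y p.1 * (y / Nat.gcd y p.1) * c := by rw [h2]
      _ = Nat.gcd y p.1 * (y / Nat.gcd y p.1 * c) := by ring
  have h1 : ((pairs N K y).card : ℝ) ≤ ∑ d ∈ y.divisors, ((N : ℝ) * K / y) := by
    calc ((pairs N K y).card : ℝ) ≤ ((y.divisors.biUnion (fun d =>
          (Icc 1 N).filter (fun n => d ∣ n) ×ˢ (Icc 1 K).filter (fun k => (y / d) ∣ k))).card : ℝ) := by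
          exact_mod_cast card_le_card hsub
      _ ≤ ((∑ d ∈ y.divisors, ((Icc 1 N).filter (fun n => d ∣ n) ×ˢ
            (Icc 1 K).filter (fun k => (y / d) ∣ k)).card : ℕ) : ℝ) := by
          exact_mod_cast card_biUnion_le
      _ ≤ ∑ d ∈ y.divisors, ((N : ℝ) * K / y) := by
          push_cast
          apply sum_le_sum
          intro d hd
          rw [card_product]
          push_cast
          have hdy := Nat.dvd_of_mem_divisors hd
          have hd0 : 0 < d := Nat.pos_of_mem_divisors hd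
          have hd0' : (0 : ℝ) < d := by exact_mod_cast hd0
          have hy0' : (0 : ℝ) < y := by exact_mod_cast hy0
          have e1 := h96_card_div N d
          have e2 := h96_card_div K (y / d)
          rw [Nat.cast_div hdy hd0'.ne'] at e2
          calc (((Icc 1 N).filter (fun n => d ∣ n)).card : ℝ) *
              (((Icc 1 K).filter (fun k => (y / d) ∣ k)).card : ℝ)
              ≤ (N / d) * (K / (y / d)) := by
                apply mul_le_mul e1 e2 (by positivity) (by positivity)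
            _ = (N : ℝ) * K / y := by field_simp
  rw [sum_const, nsmul_eq_mul] at h1
  refine h1.trans (mul_le_mul_of_nonneg_right ?_ (by positivity))
  exact_mod_cast h96_card_divisors y hy

end Pool.Agent.helper3.FT
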