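import Pool.Agent.helper3.FT.Defs

/-! FT project (MP_16912e_nt): module P4 (`family`). -/

set_option autoImplicit false

namespace Pool.Agent.helper3.FT

open Finset

/-- P4 -/
theorem family (N K W : ℕ) (hN : 1 ≤ N) (hW : 1 ≤ W) (S : Finset (ℕ × ℕ))
    (h1 : ∀ p ∈ S, N < 2 * p.1 ∧ p.1 ≤ N ∧ 1 ≤ p.2 ∧ p.2 ≤ K)
    (h2 : ∀ p ∈ S, ∀ q ∈ S, p ≠ q → (p.1 : ℤ) * q.2 - q.1 * p.2 ≠ 0 ∧
      (W : ℤ) ∣ (p.1 : ℤ) * q.2 - q.1 * p.2) :
    (S.card : ℝ) ≤ 1 + 2 * K * N / W := by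
  classical
  have hN' : (0 : ℝ) < N := by exact_mod_cast hN
  have hW' : (0 : ℝ) < W := by exact_mod_cast hW
  obtain ⟨f, hf⟩ : ∃ f : ℕ × ℕ → ℝ, f = fun p => (p.2 : ℝ) / p.1 * (N ^ 2 / W) := ⟨_, rfl⟩
  have hnn : ∀ p, 0 ≤ f p := by
    intro p
    rw [hf]
    positivity
  have hinj : Set.InjOn (fun p => ⌊f p⌋₊) (S : Set (ℕ × ℕ)) := by
    intro p hp q hq hpq
    by_contra hne
    obtain ⟨hp1, hp2, hp3, hp4⟩ := h1 p hp
    obtain ⟨hq1, hq2, hq3, hq4⟩ := h1 q hq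
    obtain ⟨d1, d2⟩ := h2 p hp q hq hne
    have hlt : |f p - f q| < 1 := by
      have e1 := Nat.floor_le (hnn p)
      have e2 := Nat.lt_floor_add_one (f p)
      have e3 := Nat.floor_le (hnn q)
      have e4 := Nat.lt_floor_add_one (f q)
      have e5 : (⌊f p⌋₊ : ℝ) = (⌊f q⌋₊ : ℝ) := by
        have : ⌊f p⌋₊ = ⌊f q⌋₊ := hpq
        rw [this]
      rw [abs_lt]
      constructor <;> linarith
    have hp1' : (0 : ℝ) < p.1 := by
      have : 0 < p.1 := by omega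
      exact_mod_cast this
    have hq1' : (0 : ℝ) < q.1 := by
      have : 0 < q.1 := by omega
      exact_mod_cast this
    have hW1 : (W : ℤ) ≤ |(p.1 : ℤ) * q.2 - q.1 * p.2| :=
      Int.le_of_dvd (abs_pos.2 d1) ((dvd_abs _ _).2 d2)
    have hW2 : (W : ℝ) ≤ |(p.1 : ℝ) * q.2 - q.1 * p.2| := by
      have : ((W : ℤ) : ℝ) ≤ ((|(p.1 : ℤ) * q.2 - q.1 * p.2| : ℤ) : ℝ) := by exact_mod_cast hW1
      push_cast at this
      exact this
    have e6 : f p - f q = -((p.1 : ℝ) * q.2 - q.1 * p.2) * (N ^ 2 / (W * (p.1 * q.1))) := by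
      rw [hf]
      field_simp
      ring
    rw [e6, abs_mul, abs_neg, abs_of_nonneg (by positivity :
      (0 : ℝ) ≤ (N : ℝ) ^ 2 / (W * (p.1 * q.1)))] at hlt
    have e7 : (p.1 : ℝ) * q.1 ≤ N ^ 2 := by
      have a1 : (p.1 : ℝ) ≤ N := by exact_mod_cast hp2
      have a2 : (q.1 : ℝ) ≤ N := by exact_mod_cast hq2
      nlinarith
    have e8 : 1 ≤ (W : ℝ) * (N ^ 2 / (W * (p.1 * q.1))) := by
      rw [← mul_div_assoc, mul_div_mul_left _ _ hW'.ne', one_le_div (by positivity)]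
      exact e7
    have e9 : (W : ℝ) * (N ^ 2 / (W * (p.1 * q.1))) ≤
        |(p.1 : ℝ) * q.2 - q.1 * p.2| * (N ^ 2 / (W * (p.1 * q.1))) :=
      mul_le_mul_of_nonneg_right hW2 (by positivity)
    linarith
  have hmaps : ∀ p ∈ S, ⌊f p⌋₊ ∈ range (⌊(2 : ℝ) * K * N / W⌋₊ + 1) := by
    intro p hp
    obtain ⟨hp1, hp2, hp3, hp4⟩ := h1 p hp
    rw [mem_range, Nat.lt_succ_iff]
    apply Nat.floor_le_floor
    rw [hf]
    have hp1' : (0 : ℝ) < p.1 := by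
      have : 0 < p.1 := by omega
      exact_mod_cast this
    have a1 : (p.2 : ℝ) ≤ K := by exact_mod_cast hp4
    have a2 : (N : ℝ) ≤ 2 * p.1 := by exact_mod_cast hp1.le
    have a3 : (p.2 : ℝ) / p.1 ≤ 2 * K / N := by
      rw [div_le_div_iff₀ hp1' hN']
      have a4 : (0 : ℝ) ≤ K := by positivity
      nlinarith
    calc (p.2 : ℝ) / p.1 * (N ^ 2 / W) ≤ 2 * K / N * (N ^ 2 / W) :=
          mul_le_mul_of_nonneg_right a3 (by positivity)
      _ = 2 * K * N / W := by field_simp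
  have hcard := card_le_card_of_injOn _ hmaps hinj
  rw [card_range] at hcard
  have hfl : ((⌊(2 : ℝ) * K * N / W⌋₊ : ℕ) : ℝ) ≤ 2 * K * N / W := Nat.floor_le (by positivity)
  have : (S.card : ℝ) ≤ ((⌊(2 : ℝ) * K * N / W⌋₊ + 1 : ℕ) : ℝ) := by exact_mod_cast hcard
  push_cast at this
  linarith

end Pool.Agent.helper3.FT
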