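import Pool.Agent.helper3.FT.Defs

/-! FT project (MP_16912e_nt): module P6a (`gcd_sum`). -/

set_option autoImplicit false

namespace Pool.Agent.helper3.FT

open Finset

/-- multiples of `d` in a symmetric interval -/
theorem h96_card_mult (L d : ℕ) (hd : 1 ≤ d) (hdL : d ≤ L) :
    (((Icc (-(L : ℤ)) L).filter (fun a => (d : ℤ) ∣ a)).card : ℝ) ≤ 3 * L / d := by
  have hd' : (0 : ℤ) < d := by exact_mod_cast hd
  have h1 : ((Icc (-(L : ℤ)) L).filter (fun a => (d : ℤ) ∣ a)).card ≤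
      (Icc (-((L / d : ℕ) : ℤ)) ((L / d : ℕ) : ℤ)).card := by
    apply card_le_card_of_injOn (fun a => a / (d : ℤ))
    · intro a ha
      rw [mem_coe, mem_filter, mem_Icc] at ha
      obtain ⟨⟨h1, h2⟩, b, rfl⟩ := ha
      rw [mem_coe, mem_Icc]
      simp only [Int.mul_ediv_cancel_left b hd'.ne']
      have h3 : b ≤ (L : ℤ) / d := by
        rw [Int.le_ediv_iff_mul_le hd']
        linarith [mul_comm b (d : ℤ)]
      have h4 : -b ≤ (L : ℤ) / d := by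
        rw [Int.le_ediv_iff_mul_le hd']
        linarith [mul_comm b (d : ℤ)]
      push_cast
      constructor <;> linarith
    · intro a ha b hb hab
      rw [mem_coe, mem_filter] at ha hb
      obtain ⟨-, x, rfl⟩ := ha
      obtain ⟨-, y, rfl⟩ := hb
      simp only [Int.mul_ediv_cancel_left _ hd'.ne'] at hab
      rw [hab]
  have h2 : (Icc (-((L / d : ℕ) : ℤ)) ((L / d : ℕ) : ℤ)).card = 2 * (L / d) + 1 := by
    rw [Int.card_Icc]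
    omega
  rw [h2] at h1
  have h3 : ((L / d : ℕ) : ℝ) ≤ (L : ℝ) / d := Nat.cast_div_le
  have h4 : (1 : ℝ) ≤ (L : ℝ) / d := by
    rw [one_le_div (by exact_mod_cast hd)]
    exact_mod_cast hdL
  have h5 : (((Icc (-(L : ℤ)) L).filter (fun a => (d : ℤ) ∣ a)).card : ℝ) ≤
      ((2 * (L / d) + 1 : ℕ) : ℝ) := by exact_mod_cast h1
  push_cast at h5
  have h6 : (3 : ℝ) * L / d = 3 * (L / d) := by ring
  rw [h6]
  have h7 : ((L / d : ℕ) : ℝ) = (((L / d : ℕ)) : ℝ) := rfl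
  linarith

theorem h96_gcd_le (L : ℕ) (a b : ℤ) (ha : a ∈ Icc (-(L : ℤ)) L) (hb : b ∈ Icc (-(L : ℤ)) L) :
    (Int.gcd a b : ℝ) ≤ ∑ d ∈ Icc 1 L, (if (d : ℤ) ∣ a ∧ (d : ℤ) ∣ b then (d : ℝ) else 0) := by
  rcases Nat.eq_zero_or_pos (Int.gcd a b) with h | h
  · rw [h, Nat.cast_zero]
    apply sum_nonneg
    intro d _
    split_ifs <;> positivity
  · have h1 : Int.gcd a b ∈ Icc 1 L := by
      rw [mem_Icc] at ha hb ⊢
      refine ⟨h, ?_⟩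
      by_cases h0 : a = 0
      · have hb0 : b ≠ 0 := by
          rintro rfl
          rw [h0] at h
          simp at h
        have h2 := Int.le_of_dvd (abs_pos.2 hb0) ((dvd_abs _ _).2 (Int.gcd_dvd_right a b))
        have h3 : |b| ≤ L := abs_le.2 hb
        omega
      · have h2 := Int.le_of_dvd (abs_pos.2 h0) ((dvd_abs _ _).2 (Int.gcd_dvd_left a b))
        have h3 : |a| ≤ L := abs_le.2 ha
        omega
    have h2 := single_le_sum (f := fun d : ℕ => if (d : ℤ) ∣ a ∧ (d : ℤ) ∣ b then (d : ℝ) else 0)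
      (fun d _ => by split_ifs <;> positivity) h1
    rwa [if_pos ⟨Int.gcd_dvd_left a b, Int.gcd_dvd_right a b⟩] at h2

/-- P6a -/
theorem gcd_sum : ∃ C : ℝ, ∀ L : ℕ, 1 ≤ L →
    ∑ a ∈ Icc (-(L : ℤ)) L, ∑ b ∈ Icc (-(L : ℤ)) L, (Int.gcd a b : ℝ) ≤
      C * (L : ℝ) ^ 2 * (1 + Real.log L) := by
  refine ⟨9, fun L hL => ?_⟩
  have h1 : ∑ a ∈ Icc (-(L : ℤ)) L, ∑ b ∈ Icc (-(L : ℤ)) L, (Int.gcd a b : ℝ) ≤
      ∑ a ∈ Icc (-(L : ℤ)) L, ∑ b ∈ Icc (-(L : ℤ)) L,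
        ∑ d ∈ Icc 1 L, (if (d : ℤ) ∣ a ∧ (d : ℤ) ∣ b then (d : ℝ) else 0) :=
    sum_le_sum fun a ha => sum_le_sum fun b hb => h96_gcd_le L a b ha hb
  have h2 : ∑ a ∈ Icc (-(L : ℤ)) L, ∑ b ∈ Icc (-(L : ℤ)) L,
        ∑ d ∈ Icc 1 L, (if (d : ℤ) ∣ a ∧ (d : ℤ) ∣ b then (d : ℝ) else 0) =
      ∑ d ∈ Icc 1 L, (d : ℝ) *
        (((Icc (-(L : ℤ)) L).filter (fun a => (d : ℤ) ∣ a)).card : ℝ) ^ 2 := by
    have e1 : ∀ a : ℤ, ∑ b ∈ Icc (-(L : ℤ)) L,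
        ∑ d ∈ Icc 1 L, (if (d : ℤ) ∣ a ∧ (d : ℤ) ∣ b then (d : ℝ) else 0) =
        ∑ d ∈ Icc 1 L, ∑ b ∈ Icc (-(L : ℤ)) L,
          (if (d : ℤ) ∣ a ∧ (d : ℤ) ∣ b then (d : ℝ) else 0) := fun a => sum_comm
    rw [sum_congr rfl (fun a _ => e1 a), sum_comm]
    apply sum_congr rfl
    intro d _
    have e2 : ∀ a b : ℤ, (if (d : ℤ) ∣ a ∧ (d : ℤ) ∣ b then (d : ℝ) else 0) =
        (d : ℝ) * ((if (d : ℤ) ∣ a then 1 else 0) * (if (d : ℤ) ∣ b then 1 else 0)) := by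
      intro a b
      by_cases ha : (d : ℤ) ∣ a <;> by_cases hb : (d : ℤ) ∣ b <;> simp [ha, hb]
    simp only [e2, ← mul_sum]
    rw [← sum_mul, sum_boole]
    ring
  have h3 : ∑ d ∈ Icc 1 L, (d : ℝ) *
        (((Icc (-(L : ℤ)) L).filter (fun a => (d : ℤ) ∣ a)).card : ℝ) ^ 2 ≤
      ∑ d ∈ Icc 1 L, 9 * (L : ℝ) ^ 2 * (d : ℝ)⁻¹ := by
    apply sum_le_sum
    intro d hd
    rw [mem_Icc] at hd
    have hd0 : (0 : ℝ) < d := by exact_mod_cast hd.1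
    have e3 := h96_card_mult L d hd.1 hd.2
    have e4 : (((Icc (-(L : ℤ)) L).filter (fun a => (d : ℤ) ∣ a)).card : ℝ) ^ 2 ≤
        (3 * L / d) ^ 2 := pow_le_pow_left₀ (by positivity) e3 2
    calc (d : ℝ) * (((Icc (-(L : ℤ)) L).filter (fun a => (d : ℤ) ∣ a)).card : ℝ) ^ 2
        ≤ (d : ℝ) * (3 * L / d) ^ 2 := mul_le_mul_of_nonneg_left e4 hd0.le
      _ = 9 * (L : ℝ) ^ 2 * (d : ℝ)⁻¹ := by field_simp; ring
  have h4 : ∑ d ∈ Icc 1 L, (d : ℝ)⁻¹ ≤ 1 + Real.log L := by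
    have e5 := harmonic_le_one_add_log L
    have e6 : ((harmonic L : ℚ) : ℝ) = ∑ d ∈ Icc 1 L, (d : ℝ)⁻¹ := by
      rw [harmonic_eq_sum_Icc]
      push_cast
      rfl
    rw [← e6]
    exact e5
  calc ∑ a ∈ Icc (-(L : ℤ)) L, ∑ b ∈ Icc (-(L : ℤ)) L, (Int.gcd a b : ℝ)
      ≤ ∑ d ∈ Icc 1 L, 9 * (L : ℝ) ^ 2 * (d : ℝ)⁻¹ := h1.trans (h2.le.trans h3)
    _ = 9 * (L : ℝ) ^ 2 * ∑ d ∈ Icc 1 L, (d : ℝ)⁻¹ := by rw [mul_sum]
    _ ≤ 9 * (L : ℝ) ^ 2 * (1 + Real.log L) := mul_le_mul_of_nonneg_left h4 (by positivity)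

end Pool.Agent.helper3.FT
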