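import Pool.Agent.helper96.FT.A2

/-! FT project (MP_16912e_nt): module A4a (`Full.ramified`). -/

set_option autoImplicit false

namespace Pool.Agent.helper3.FT

open NumberField Pool.Agent.helper47.RA

variable {K : Type} [Field K] [NumberField K]

/-- divisibility and equal norms imply equality -/
theorem h96_eq_of_dvd {I J : Ideal (𝓞 K)} (hd : I ∣ J) (h0 : Ideal.absNorm J ≠ 0)
    (h : Ideal.absNorm I = Ideal.absNorm J) : I = J := by
  obtain ⟨C, rfl⟩ := hd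
  rw [map_mul] at h h0
  have h1 : Ideal.absNorm C = 1 := by
    have h2 : Ideal.absNorm I * Ideal.absNorm C = Ideal.absNorm I * 1 := by rw [mul_one, ← h]
    exact Nat.eq_of_mul_eq_mul_left (Nat.pos_of_ne_zero (left_ne_zero_of_mul h0)) h2
  rw [Ideal.absNorm_eq_one_iff] at h1
  rw [h1, Ideal.mul_top]

theorem h96_dvd_of_bar (Q : QF K) {I J : Ideal (𝓞 K)} (h : I ∣ Q.bar J) : Q.bar I ∣ J := by
  obtain ⟨C, hC⟩ := h
  refine ⟨Q.bar C, ?_⟩
  rw [← Q.bar_mul, ← hC, Q.bar_bar]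

theorem h96_bar_dvd (Q : QF K) {I J : Ideal (𝓞 K)} (h : I ∣ J) : Q.bar I ∣ Q.bar J := by
  obtain ⟨C, hC⟩ := h
  exact ⟨Q.bar C, by rw [← Q.bar_mul, ← hC]⟩

theorem h96_norm_q (Q : QF K) (q : ℕ) :
    Ideal.absNorm (Ideal.span {(q : 𝓞 K)}) = q ^ 2 := by
  have h := Q.hnorm (q : 𝓞 K)
  have h1 : (q : 𝓞 K) = ((q : ℤ) : 𝓞 K) := by push_cast; rfl
  have h2 : Q.v₁ (q : 𝓞 K) = q := by rw [h1, Q.v₁_int]; simp
  have h3 : Q.v₂ (q : 𝓞 K) = q := by rw [h1, Q.v₂_int]; simp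
  rw [h2, h3] at h
  have h4 : ((Ideal.absNorm (Ideal.span {(q : 𝓞 K)}) : ℕ) : ℝ) = ((q ^ 2 : ℕ) : ℝ) := by
    rw [h]; push_cast; ring
  exact_mod_cast h4

theorem h96_bar_q (Q : QF K) (q : ℕ) :
    Q.bar (Ideal.span {(q : 𝓞 K)}) = Ideal.span {(q : 𝓞 K)} := by
  rw [Q.bar_span, map_natCast]

/-- the gcd of an ideal with a rational prime -/
theorem h96_gcd_q (Q : QF K) (q : ℕ) (hq : q.Prime) (I : Ideal (𝓞 K))
    (h1 : ¬ Ideal.span {(q : 𝓞 K)} ∣ I) (h2 : I ⊔ Ideal.span {(q : 𝓞 K)} ≠ ⊤) :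
    Ideal.absNorm (I ⊔ Ideal.span {(q : 𝓞 K)}) = q := by
  have hd : I ⊔ Ideal.span {(q : 𝓞 K)} ∣ Ideal.span {(q : 𝓞 K)} :=
    Ideal.dvd_iff_le.2 le_sup_right
  have hd' : I ⊔ Ideal.span {(q : 𝓞 K)} ∣ I := Ideal.dvd_iff_le.2 le_sup_left
  have h3 : Ideal.absNorm (I ⊔ Ideal.span {(q : 𝓞 K)}) ∣ q ^ 2 := by
    rw [← h96_norm_q Q q]
    exact map_dvd _ hd
  obtain ⟨i, hi, h4⟩ := (Nat.dvd_prime_pow hq).1 h3
  interval_cases i
  · rw [pow_zero, Ideal.absNorm_eq_one_iff] at h4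
    exact absurd h4 h2
  · rw [h4, pow_one]
  · exfalso
    apply h1
    have h5 := h96_eq_of_dvd hd (by rw [h96_norm_q Q q]; exact pow_ne_zero _ hq.ne_zero)
      (by rw [h4, h96_norm_q Q q])
    rw [← h5]
    rw [h5] at hd' ⊢
    exact hd'

theorem h96_prime_of_norm {P : Ideal (𝓞 K)} {q : ℕ} (hq : q.Prime)
    (h : Ideal.absNorm P = q) : Prime P := by
  have h0 : P ≠ ⊥ := by
    rintro rfl
    rw [Ideal.absNorm_bot] at h
    exact hq.ne_zero h.symm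
  apply Ideal.prime_of_isPrime h0
  apply Ideal.isPrime_of_irreducible_absNorm
  rw [h]
  exact hq

variable {Q : QF K}

/-- A4a -/
theorem Full.ramified (F : Full Q) (q : ℕ) (hq : q.Prime) (h1 : (q : 𝓞 K) ∣ F.β)
    (h2 : (q : 𝓞 K) ∣ F.γ) : ∃ P : Ideal (𝓞 K), P.IsPrime ∧ P * P = Ideal.span {(q : 𝓞 K)} ∧
      Q.bar P = P ∧ P ∣ F.a ∧ P ∣ F.L := by
  obtain ⟨S, hS⟩ : ∃ S : Ideal (𝓞 K), S = Ideal.span {(q : 𝓞 K)} := ⟨_, rfl⟩
  have hβ : S ∣ F.a ^ 2 * F.L := by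
    rw [← F.iβ, hS, Ideal.dvd_iff_le, Ideal.span_singleton_le_span_singleton]
    exact h1
  have hγ : S ∣ Q.bar F.a * F.L ^ 2 := by
    rw [← F.iγ, hS, Ideal.dvd_iff_le, Ideal.span_singleton_le_span_singleton]
    exact h2
  have ha : ¬ S ∣ F.a := by rw [hS]; exact F.pa q hq
  have hL : ¬ S ∣ F.L := by rw [hS]; exact F.pL q hq
  have hP1 : F.a ⊔ S ≠ ⊤ := by
    intro h
    have hc : IsCoprime F.a S := Ideal.isCoprime_iff_sup_eq.2 h
    exact hL (hc.symm.pow_right.dvd_of_dvd_mul_left hβ)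
  have hbS : Q.bar S = S := by rw [hS]; exact h96_bar_q Q q
  have hR1 : F.L ⊔ S ≠ ⊤ := by
    intro h
    have hc : IsCoprime F.L S := Ideal.isCoprime_iff_sup_eq.2 h
    have h3 : S ∣ Q.bar F.a := hc.symm.pow_right.dvd_of_dvd_mul_right hγ
    have h4 := h96_dvd_of_bar Q h3
    rw [hbS] at h4
    exact ha h4
  have nP : Ideal.absNorm (F.a ⊔ S) = q := by
    have := h96_gcd_q Q q hq F.a (by rw [← hS]; exact ha) (by rw [← hS]; exact hP1)
    rw [← hS] at this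
    exact this
  have nR : Ideal.absNorm (F.L ⊔ S) = q := by
    have := h96_gcd_q Q q hq F.L (by rw [← hS]; exact hL) (by rw [← hS]; exact hR1)
    rw [← hS] at this
    exact this
  obtain ⟨P, hP⟩ : ∃ P : Ideal (𝓞 K), P = F.a ⊔ S := ⟨_, rfl⟩
  obtain ⟨R, hR⟩ : ∃ R : Ideal (𝓞 K), R = F.L ⊔ S := ⟨_, rfl⟩
  rw [← hP] at nP
  rw [← hR] at nR
  have dPa : P ∣ F.a := by rw [hP]; exact Ideal.dvd_iff_le.2 le_sup_left
  have dPS : P ∣ S := by rw [hP]; exact Ideal.dvd_iff_le.2 le_sup_right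
  have dRL : R ∣ F.L := by rw [hR]; exact Ideal.dvd_iff_le.2 le_sup_left
  have dRS : R ∣ S := by rw [hR]; exact Ideal.dvd_iff_le.2 le_sup_right
  have pP : Prime P := h96_prime_of_norm hq nP
  have pR : Prime R := h96_prime_of_norm hq nR
  have nbP : Ideal.absNorm (Q.bar P) = q := by rw [Q.absNorm_bar, nP]
  have pbP : Prime (Q.bar P) := h96_prime_of_norm hq nbP
  have hPP : P * Q.bar P = S := by rw [Q.mul_bar, nP, hS]
  -- both `P` and `bar P` divide `I`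
  have key : ∀ I : Ideal (𝓞 K), Q.bar P ≠ P → P ∣ I → Q.bar P ∣ I → S ∣ I := by
    rintro I hne ⟨I1, rfl⟩ hb
    rcases pbP.dvd_or_dvd hb with h | h
    · exact absurd (h96_eq_of_dvd h (by rw [nP]; exact hq.ne_zero) (by rw [nP, nbP])) hne
    · rw [← hPP]
      exact mul_dvd_mul_left P h
  have hbar : Q.bar P = P := by
    by_contra hne
    have d1 : ¬ Q.bar P ∣ F.a := fun h => ha (key _ hne dPa h)
    have d2 : Q.bar P ∣ F.L := by
      have h3 : Q.bar P ∣ S := by rw [← hPP]; exact dvd_mul_left _ _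
      rcases pbP.dvd_or_dvd (h3.trans hβ) with h | h
      · exact absurd (pbP.dvd_of_dvd_pow h) d1
      · exact h
    have d3 : ¬ P ∣ F.L := fun h => hL (key _ hne h d2)
    rcases pP.dvd_or_dvd (dPS.trans hγ) with h | h
    · exact d1 (h96_dvd_of_bar Q h)
    · exact d3 (pP.dvd_of_dvd_pow h)
  refine ⟨P, Ideal.isPrime_of_prime pP, ?_, hbar, dPa, ?_⟩
  · rw [hbar] at hPP
    rw [hPP, hS]
  · rw [hbar] at hPP
    have h3 : R ∣ P := by
      rcases pR.dvd_or_dvd (dRS.trans (dvd_of_eq hPP.symm)) with h | h <;> exact h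
    have h4 : R = P := h96_eq_of_dvd h3 (by rw [nP]; exact hq.ne_zero) (by rw [nP, nR])
    rw [← h4]
    exact dRL

end Pool.Agent.helper3.FT
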