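import Pool.Agent.helper71.FT.Spec

/-!
# MP_07c750, project FT, row `ft:VMB` (the polynomials `vm`)
-/

open scoped MatrixGroups ContDiff Topology UpperHalfPlane ComplexConjugate
open UpperHalfPlane MeasureTheory Filter Set

set_option autoImplicit false

namespace Pool.Agent.FT

open Pool.Agent.RS
open Pool.Agent.MS (bq BB BA SF pf)
open Pool.Agent.EN (XG MG mkX mkM fl pr)
open Pool.Agent.FS (tp)

theorem VMB_card (p : ℕ → Prop) [DecidablePred p] (n : ℕ) :
    ((Finset.range (n + 1)).filter p).card = ((Finset.range n).filter p).card + if p n then 1 else 0 := by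
  rw [Finset.range_add_one, Finset.filter_insert]
  split_ifs with h
  · rw [Finset.card_insert_of_notMem]
    intro h2
    have h3 := (Finset.mem_filter.1 h2).1
    exact absurd (Finset.mem_range.1 h3) (lt_irrefl n)
  · rfl

theorem VMB_z (χ : SL(2, ℝ) → ℝ) (m : ℕ) (g : SL(2, ℝ)) : vm χ 0 m g = 1 := by
  unfold vm
  rfl

theorem VMB_s0 (χ : SL(2, ℝ) → ℝ) (n : ℕ) (g : SL(2, ℝ)) : vm χ (n + 1) 0 g = χ (g * aM (n : ℝ)) * vm χ n 0 g := by
  rw [vm]

theorem VMB_s (χ : SL(2, ℝ) → ℝ) (n m : ℕ) (g : SL(2, ℝ)) :
    vm χ (n + 1) (m + 1) g = χ (g * aM (n : ℝ)) * vm χ n (m + 1) g + (1 - χ (g * aM (n : ℝ))) * vm χ n m g := by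
  rw [vm]

theorem VMB_proof : VMB_stmt := by
  intro χ n m g hχ
  induction n generalizing m with
  | zero =>
    rw [VMB_z, VMB_z]
    refine ⟨zero_le_one, le_rfl, le_rfl, fun _ => rfl, fun _ => ?_⟩
    rw [Finset.range_zero, Finset.filter_empty, Finset.card_empty]
    exact Nat.zero_le _
  | succ n ih =>
    have hu := hχ (g * aM (n : ℝ))
    rcases m with _ | m
    · rw [VMB_s0, VMB_s, VMB_card, VMB_card]
      obtain ⟨a1, a2, a3, a4, a5⟩ := ih 0
      obtain ⟨b1, b2, b3, b4, b5⟩ := ih 1
      set u : ℝ := χ (g * aM (n : ℝ)) with hud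
      refine ⟨mul_nonneg hu.1 a1, mul_le_one₀ hu.2 a1 a2, ?_, ?_, ?_⟩
      · have e1 : u * vm χ n 0 g ≤ u * vm χ n (0 + 1) g := mul_le_mul_of_nonneg_left a3 hu.1
        have e2 : 0 ≤ (1 - u) * vm χ n 0 g := mul_nonneg (by linarith [hu.2]) a1
        linarith
      · intro h
        by_cases h1 : u = 1
        · rw [h1, one_mul]
          refine a4 ?_
          omega
        · rw [if_pos h1] at h
          omega
      · intro h
        have h1 : u ≠ 0 := left_ne_zero_of_mul h
        rw [if_neg h1]
        have := a5 (right_ne_zero_of_mul h)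
        omega
    · rw [VMB_s, VMB_s, VMB_card, VMB_card]
      obtain ⟨a1, a2, a3, a4, a5⟩ := ih m
      obtain ⟨b1, b2, b3, b4, b5⟩ := ih (m + 1)
      set u : ℝ := χ (g * aM (n : ℝ)) with hud
      have hu' : 0 ≤ 1 - u := by linarith [hu.2]
      refine ⟨add_nonneg (mul_nonneg hu.1 b1) (mul_nonneg hu' a1), ?_, ?_, ?_, ?_⟩
      · have e1 := mul_le_mul_of_nonneg_left b2 hu.1
        have e2 := mul_le_mul_of_nonneg_left a2 hu'
        linarith
      · have e1 := mul_le_mul_of_nonneg_left b3 hu.1
        have e2 := mul_le_mul_of_nonneg_left a3 hu'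
        linarith
      · intro h
        by_cases h1 : u = 1
        · rw [h1, one_mul, sub_self, zero_mul, add_zero]
          refine b4 ?_
          rw [if_neg (not_not.2 h1)] at h
          omega
        · rw [if_pos h1] at h
          rw [a4 (by omega), b4 (by omega)]
          ring
      · intro h
        by_cases h1 : u = 0
        · rw [if_pos h1]
          rw [h1, zero_mul, zero_add, sub_zero, one_mul] at h
          have := a5 h
          omega
        · rw [if_neg h1]
          by_cases h2 : vm χ n (m + 1) g = 0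
          · have h3 : vm χ n m g ≠ 0 := by
              intro h4
              rw [h2, h4, mul_zero, mul_zero, add_zero] at h
              exact h rfl
            have := a5 h3
            omega
          · have := b5 h2
            omega

end Pool.Agent.FT
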